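import Mathlib
import Pool.Agent.Results.MP_9a3c31_nt.AllFieldsAllTwists
import Pool.Agent.H164.NA.Core

/-!
# The lower bound of Lang and Silverman for all invariants near a typical point, over all number fields

`K` is a number field of degree `n`, `K_ℝ = K ⊗ ℝ` its real space (`mixedSpace K`) and `H` the absolute multiplicative
height. For almost every `z` in `K_ℝ`, for all `κ ∈ (0, 1)` and all `σ > (7 + κ) / 4`, all but finitely many `j ∈ K` with
`|j - z|_v ≤ H(j) ^ (-σ)` at all archimedean places have the following property: for ALL elliptic curves `E` over `K` of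
invariant `j` (all twists), all powers `E ^ g`, all polarizations `M` and all points `P ≠ 0` of `E ^ g` over `K`, the
absolute canonical height of `P` is at least `κ / 100` times `1 + h(j) + ∑ log N v / n`, the sum over the primes of bad
reduction of `E`; in particular there are no torsion points. Moreover almost every real number and almost every complex
number `z` has this property for ALL number fields `K` contained in `ℝ` or `ℂ` at once, with the relative height `H(j) ^ n`: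
`|j - z| ≤ H(j) ^ (- n σ)`, `σ > (7 + κ) / 4` in `ℝ` and `σ > (7 + κ) / 8` in `ℂ`. (By Dirichlet's theorem infinitely many
`j ∈ K` are as near to `z` if `σ < 2` in `K_ℝ` and in `ℝ`, `σ < 1` in `ℂ`.)
-/

set_option autoImplicit false

namespace Pool.Agent.Results.MP_9a3c31_nt.InvariantsNearPoints

open NumberField MeasureTheory IsDedekindDomain Pool.Agent.TH942 Pool.Agent.TH910.LS
open Pool.Agent.Results.MP_9a3c31_nt.AllFieldsAllTwists (LangSilverman jInv Bad)

section Defs

variable {K : Type} [Field K] [NumberField K]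

/-- the absolute multiplicative height -/
noncomputable def H (c : K) : ℝ := Real.exp (Height.logHeight₁ c / Module.finrank ℚ K)

open scoped Classical in
/-- `c` is within `H(c) ^ (-σ)` of the point `z` of the real space of `K`, at every archimedean place -/
def Near (σ : ℝ) (z : mixedEmbedding.mixedSpace K) (c : K) : Prop :=
  dist (mixedEmbedding K c) z ≤ H c ^ (-σ)

open scoped Classical in
/-- some elliptic curve over `K` of invariant `j` has a torsion point over `K` -/
def HasTorsion (j : K) : Prop :=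
  ∃ a b : K, 4 * a ^ 3 + 27 * b ^ 2 ≠ 0 ∧ jInv a b = j ∧ ∃ P : SPt a b, P ≠ 0 ∧ IsOfFinAddOrder P

end Defs

section Aux

theorem H_eq {K : Type} [Field K] [NumberField K] (c : K) : Pool.Agent.H164.NA.H c = H c := rfl

/-- the bad invariants -/
def BadJ (K : Type) [Field K] [NumberField K] (κ : ℝ) : Set K :=
  {j : K | (j ≠ 0 ∧ j ≠ 1728) ∧ ¬ LangSilverman (κ / 100) j}

variable {K : Type} [Field K] [NumberField K]

lemma h_nonneg (c : K) : 0 ≤ Height.logHeight₁ c / Module.finrank ℚ K :=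
  div_nonneg (Height.zero_le_logHeight₁ c) (Nat.cast_nonneg _)

lemma mono {κ r : ℝ} (hκ : κ ≤ r) {c : K} (hc : LangSilverman r c) : LangSilverman κ c := by
  intro a b hD hab S hS g M hM P hP
  refine le_trans ?_ (hc a b hD hab S hS g M hM P hP)
  have h1 := h_nonneg c
  have h2 : 0 ≤ (∑ v ∈ S, Real.log (Ideal.absNorm v.asIdeal : ℝ)) / Module.finrank ℚ K :=
    div_nonneg (Finset.sum_nonneg fun v _ => Real.log_natCast_nonneg _) (Nat.cast_nonneg _)
  exact mul_le_mul_of_nonneg_right hκ (by linarith)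

lemma count (K : Type) [Field K] [NumberField K] (κ : ℝ) (hκ : κ ∈ Set.Ioo (0 : ℝ) 1) :
    ∀ ε : ℝ, 0 < ε → ∃ C : ℝ, ∀ X : ℝ, 1 ≤ X →
    {c : K | c ∈ BadJ K κ ∧ Pool.Agent.H164.NA.H c ≤ X}.Finite ∧
      ({c : K | c ∈ BadJ K κ ∧ Pool.Agent.H164.NA.H c ≤ X}.ncard : ℝ) ≤
        C * X ^ ((Module.finrank ℚ K : ℝ) * ((7 + κ) / 4) + ε) := by
  intro ε hε
  have hn : (0 : ℝ) < Module.finrank ℚ K := Pool.Agent.H164.NA.n_pos
  obtain ⟨C, hC0, hC⟩ := AllFieldsAllTwists.part_one ((1 - κ) / 2) (ε / Module.finrank ℚ K)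
    (by linarith [hκ.2]) (by linarith [hκ.1]) (by positivity)
  have ec : (1 - 2 * ((1 - κ) / 2)) / 100 = κ / 100 := by ring
  rw [ec] at hC
  refine ⟨C ^ Module.finrank ℚ K, fun X hX => ?_⟩
  have hX0 : 0 < X := by linarith
  obtain ⟨h1, h2⟩ := hC K X hX
  have heq : {c : K | c ∈ BadJ K κ ∧ Pool.Agent.H164.NA.H c ≤ X} =
      AllFieldsAllTwists.Exc K (κ / 100) X := by
    ext c
    constructor
    · rintro ⟨⟨⟨g0, g1⟩, g2⟩, g3⟩
      exact ⟨⟨g0, g1, (Pool.Agent.H164.NA.H_le_iff c hX0).1 g3⟩, g2⟩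
    · rintro ⟨⟨g0, g1, g3⟩, g2⟩
      exact ⟨⟨⟨g0, g1⟩, g2⟩, (Pool.Agent.H164.NA.H_le_iff c hX0).2 g3⟩
  rw [heq]
  refine ⟨h1.subset fun c hc => hc.1, h2.trans (le_of_eq ?_)⟩
  rw [mul_pow, ← Real.rpow_natCast (X ^ _), ← Real.rpow_mul hX0.le]
  congr 2
  field_simp
  ring

lemma dense (K : Type) [Field K] [NumberField K] (κ : ℝ) (hκ : κ ∈ Set.Ioo (0 : ℝ) 1) (t : ℝ)
    (ht : (7 + κ) / 4 < t) :
    ∃ r : ℚ, (r : ℝ) ∈ Set.Ioo (0 : ℝ) 1 ∧ (7 + (r : ℝ)) / 4 < t ∧ BadJ K κ ⊆ BadJ K r := by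
  obtain ⟨r, hr1, hr2⟩ : ∃ r : ℚ, κ < (r : ℝ) ∧ (r : ℝ) < min 1 (4 * t - 7) :=
    exists_rat_btwn (lt_min hκ.2 (by linarith))
  have hr3 := hr2.trans_le (min_le_left _ _)
  have hr4 := hr2.trans_le (min_le_right _ _)
  exact ⟨r, ⟨hκ.1.trans hr1, hr3⟩, by linarith,
    fun c hc => ⟨hc.1, fun hcon => hc.2 (mono (by linarith) hcon)⟩⟩

lemma s_nonneg (κ : ℝ) (hκ : κ ∈ Set.Ioo (0 : ℝ) 1) : 0 ≤ (7 + κ) / 4 := by linarith [hκ.1]

lemma torsion {κ : ℝ} (hκ : 0 < κ) {c : K} (hc : HasTorsion c) : ¬ LangSilverman (κ / 100) c := by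
  classical
  obtain ⟨a, b, hD, hab, P, hP0, hP⟩ := hc
  intro g2
  exact hP0 (AllFieldsAllTwists.part_five (by positivity) g2 a b hD hab P hP)

/-- the two invariants `0` and `1728` do not matter -/
lemma add_two {p : K → Prop} {κ : ℝ} (h : {c : K | p c ∧ c ∈ BadJ K κ}.Finite) :
    {c : K | p c ∧ ¬ LangSilverman (κ / 100) c}.Finite := by
  refine (h.union (Set.toFinite ({0, 1728} : Set K))).subset ?_
  rintro c ⟨g1, g2⟩
  by_cases h0 : c = 0
  · exact Or.inr (Or.inl h0)
  · by_cases h1 : c = 1728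
    · exact Or.inr (Or.inr h1)
    · exact Or.inl ⟨g1, ⟨h0, h1⟩, g2⟩

end Aux

open scoped Classical in
/-- **Theorem.** `K` is any number field, of degree `n`.
(1) For almost every `z` in the real space of `K`, for all `κ ∈ (0, 1)` and `σ > (7 + κ) / 4`: for all but finitely many
`j ∈ K` with `|j - z|_v ≤ H(j) ^ (-σ)` at all archimedean places the lower bound of Lang and Silverman with the constant
`κ / 100` holds for all elliptic curves over `K` of invariant `j`, all powers and polarizations; and all but finitely many of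
these `j` are not invariants of curves with a torsion point over `K`.
(2) For every map `φ` from `K` to a metric space, every `κ ∈ (0, 1)` and `σ > 0` the points `z` for which infinitely many
`j` without the lower bound satisfy `dist (φ j, z) ≤ H(j) ^ (-σ)` form a set of dimension at most `n (7 + κ) / (4 σ)`.
(3) For almost every real number `z`, for all number fields `K ⊂ ℝ`, all `κ ∈ (0, 1)` and `σ > (7 + κ) / 4`: the bound holds
for all but finitely many `j ∈ K` with `|j - z| ≤ H(j) ^ (- n σ)`; and infinitely many rational `j` satisfy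
`|j - z| ≤ H(j) ^ (-σ)` if `σ < 2`.
(4) For almost every complex number `z`, for all number fields `K ⊂ ℂ`, all `κ ∈ (0, 1)` and `σ > (7 + κ) / 8`: the bound
holds for all but finitely many `j ∈ K` with `|j - z| ≤ H(j) ^ (- n σ)`. -/
theorem result :
    (∀ (K : Type) [Field K] [NumberField K], ∀ᵐ z : mixedEmbedding.mixedSpace K,
      ∀ κ σ : ℝ, 0 < κ → κ < 1 → (7 + κ) / 4 < σ →
        {j : K | Near σ z j ∧ ¬ LangSilverman (κ / 100) j}.Finite ∧
        {j : K | Near σ z j ∧ HasTorsion j}.Finite) ∧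
    (∀ (K : Type) [Field K] [NumberField K] (M : Type) [MetricSpace M] (φ : K → M) (κ σ : ℝ),
      0 < κ → κ < 1 → 0 < σ →
        dimH {z : M | {j : K | dist (φ j) z ≤ H j ^ (-σ) ∧ ¬ LangSilverman (κ / 100) j}.Infinite} ≤
          ENNReal.ofReal (Module.finrank ℚ K * (7 + κ) / (4 * σ))) ∧
    (∀ᵐ z : ℝ, (∀ (K : IntermediateField ℚ ℝ) [NumberField K], ∀ κ σ : ℝ, 0 < κ → κ < 1 → (7 + κ) / 4 < σ →
      {j : K | |(j : ℝ) - z| ≤ H j ^ (-(Module.finrank ℚ K * σ)) ∧ ¬ LangSilverman (κ / 100) j}.Finite) ∧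
        ∀ σ : ℝ, σ < 2 → {j : ℚ | |(j : ℝ) - z| ≤ H j ^ (-σ)}.Infinite) ∧
    (∀ᵐ z : ℂ, ∀ (K : IntermediateField ℚ ℂ) [NumberField K], ∀ κ σ : ℝ, 0 < κ → κ < 1 → (7 + κ) / 8 < σ →
      {j : K | ‖(j : ℂ) - z‖ ≤ H j ^ (-(Module.finrank ℚ K * σ)) ∧ ¬ LangSilverman (κ / 100) j}.Finite) := by
  refine ⟨?_, ?_, ?_, ?_⟩
  · intro K _ _
    have h1 := Pool.Agent.H164.NA.near_space (K := K) (Set.Ioo (0 : ℝ) 1) (fun κ => (7 + κ) / 4) (BadJ K)
      s_nonneg (count K) (dense K) (volume : Measure (mixedEmbedding.mixedSpace K))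
      (by rw [mixedEmbedding.finrank K]; exact Module.finrank_pos) (fun c : K => mixedEmbedding K c)
    filter_upwards [h1] with z hz κ σ hκ0 hκ hσ
    have hn : (0 : ℝ) < Module.finrank ℚ K := Pool.Agent.H164.NA.n_pos
    have h2 := hz κ ⟨hκ0, hκ⟩ σ (by
      rw [mixedEmbedding.finrank K, mul_div_cancel_left₀ _ hn.ne']
      exact hσ)
    have h3 : {j : K | Near σ z j ∧ ¬ LangSilverman (κ / 100) j}.Finite := add_two h2
    exact ⟨h3, h3.subset fun c hc => ⟨hc.1, torsion hκ0 hc.2⟩⟩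
  · intro K _ _ M _ φ κ σ hκ0 hκ hσ
    refine le_trans (dimH_mono ?_) ((Pool.Agent.H164.NA.near_dim (BadJ K κ) (s_nonneg κ ⟨hκ0, hκ⟩)
      (count K κ ⟨hκ0, hκ⟩) φ hσ).trans (le_of_eq ?_))
    · intro z hz hcon
      exact hz (add_two hcon)
    · congr 1
      field_simp
  · have h1 := Pool.Agent.H164.NA.near_subfields (Set.Ioo (0 : ℝ) 1) (fun κ => (7 + κ) / 4) BadJ
      s_nonneg count dense ℝ (volume : Measure ℝ) (by rw [Module.finrank_self]; exact one_pos)
    filter_upwards [h1, Pool.Agent.H164.NA.ae_irrational] with z hz hirr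
    refine ⟨fun K _ κ σ hκ0 hκ hσ => ?_, fun σ hσ => Pool.Agent.H164.NA.near_infinite hirr hσ⟩
    exact add_two (hz K κ ⟨hκ0, hκ⟩ σ (by rw [Module.finrank_self, Nat.cast_one, div_one]; exact hσ))
  · have h1 := Pool.Agent.H164.NA.near_subfields (Set.Ioo (0 : ℝ) 1) (fun κ => (7 + κ) / 4) BadJ
      s_nonneg count dense ℂ (volume : Measure ℂ) (by rw [Complex.finrank_real_complex]; norm_num)
    filter_upwards [h1] with z hz K _ κ σ hκ0 hκ hσ
    have h2 := hz K κ ⟨hκ0, hκ⟩ σ (by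
      rw [Complex.finrank_real_complex]
      push_cast
      linarith)
    have h3 := add_two h2
    refine h3.subset ?_
    rintro c ⟨g1, g2⟩
    exact ⟨by rw [dist_eq_norm]; exact g1, g2⟩

end Pool.Agent.Results.MP_9a3c31_nt.InvariantsNearPoints
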