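import Pool.Agent.Results.MP_9a3c31_nt.AlmostAllInvariants
import Pool.Agent.V11286.NE.Vol
import Pool.Agent.Y854.GM.Win

/-!
# Lang and Silverman's lower bound for all invariants in windows along sequences

The starting hand-in `AlmostAllInvariants` orders the invariants `j ≠ 0, 1728` of a number field `K`
by the number `exp (jcnt j)`, the product of the norms of the primes at which `j` reduces to `0`,
`1728` or `∞`; there are `X ^ (2/3 + o(1))` invariants up to `X`, of whatever height, and at most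
`C X ^ (2/3 - ν)` of them are exceptional. It says nothing about any given invariant.

Here there are no exceptions: let `v_n ≥ 1` be a sequence with exponent of convergence at most `τ`.
For all `α > 0` outside a set of Hausdorff dimension at most `(2/3 - ν + τ) / (1 - θ)` and all large
`n`, ALL invariants `j` in `K` with `|exp (jcnt j) - α v_n| ≤ v_n ^ θ` satisfy the lower bound, for
all forms (in particular all twists) of all powers of the curves of invariant `j`. If `τ = 0` then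
for almost every `α` this holds for all number fields `K` in `ℂ` at the same time, with windows of
length `v_n ^ θ`, where `θ > 1/3` depends on `K`. (The windows of length `v_n ^ (1/3)` have the
critical length, for which there are `v_n ^ (o(1))` invariants in a window on average.)
-/

set_option autoImplicit false

open MeasureTheory Filter Module

namespace Pool.Agent.Results.MP_9a3c31_nt.WindowsOfInvariants

open Pool.Agent.TH910.LS Pool.Agent.Y725.LS NumberField IsDedekindDomain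
open Pool.Agent.Results.MP_9a3c31_nt.AlmostAllInvariants (jcnt Exceptional LangSilverman)

/-- The exponent of convergence of the sequence `v` is at most `τ`. -/
def ConvergenceExponentLe (v : ℕ → ℝ) (τ : ℝ) : Prop :=
  ∀ s : ℝ, τ < s → Summable (fun n : ℕ => (v n) ^ (-s))

/-- The number `exp (jcnt j)` (the product of the norms of the primes at which `j` reduces to `0`,
`1728` or `∞`) lies in the window with centre `x` and length `2 w`. -/
def InWindow {K : Type} [Field K] [NumberField K] (x w : ℝ) (j : K) : Prop :=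
  j ≠ 0 ∧ j ≠ 1728 ∧ |Real.exp (jcnt j) - x| ≤ w

/-- The lower bound of Lang and Silverman, with the constant `c`, for all forms over `K` of the
`g`-th powers of the elliptic curves `y² = x³ + a x + b` over `K` of invariant `j`, given by `a`, `b`
of height at most `κ (1 + h(j))`. -/
def BoundFor (c : ℝ) (g : ℕ) (κ : ℝ) {K : Type} [Field K] [NumberField K] (j : K) : Prop :=
  ∀ a b : 𝓞 K, 4 * (a : K) ^ 3 + 27 * (b : K) ^ 2 ≠ 0 → jinv (a : K) b = j →
    absH (a : K) + absH (b : K) ≤ κ * (1 + absH j) →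
    ∀ (L : Type) [Field L] [NumberField L] [Algebra K L] [IsGalois K L] [DecidableEq L],
      LangSilverman c g a b L

/-- The dimension of the exceptional set is less than one for some windows of length more than
`v_n ^ (1/3)`. -/
theorem ratio {ν : ℝ} (hν : 0 < ν) (hν1 : ν ≤ 1 / 3) :
    (2 / 3 - ν + 0) / (1 - (1 / 3 + ν / 2)) < 1 := by
  rw [div_lt_one (by linarith)]
  linarith

/-- **Theorem.** There are constants `c D g κ > 0` with the following properties.
(1) For every number field `K` there is `ν > 0` such that for every sequence `v_n ≥ 1` with exponent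
of convergence at most `τ` and every `θ < 1` the following holds for all `α > 0` outside a set of
Hausdorff dimension at most `(2/3 - ν + τ) / (1 - θ)`: for all large `n` and all invariants `j` in
`K` with `|exp (jcnt j) - α v_n| ≤ v_n ^ θ` the bound with the constant `c [K : ℚ] g κ` holds, for
all `g` and `κ`.
(2) For every sequence `v_n ≥ 1` with exponent of convergence zero and almost every `α > 0` the
following holds for all number fields `K` in `ℂ`: there is `θ > 1/3` such that for all large `n` and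
all invariants `j` in `K` with `|exp (jcnt j) - α v_n| ≤ v_n ^ θ` the bound with the constant
`c [K : ℚ] g κ` holds, for all `g` and `κ`.
(3) Every `j ≠ 0, 1728` is the invariant of a curve with coefficients as in the definition of
`BoundFor`, with a `κ` depending only on `[K : ℚ]`. -/
theorem result : ∃ c : ℕ → ℕ → ℝ → ℝ, (∀ D g κ, 0 < c D g κ) ∧
    (∀ (K : Type) [Field K] [NumberField K], ∃ ν : ℝ, 0 < ν ∧
      ∀ (v : ℕ → ℝ) (τ θ : ℝ), (∀ n, 1 ≤ v n) → 0 ≤ τ → ConvergenceExponentLe v τ → θ < 1 →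
      ∃ E : Set ℝ, dimH E ≤ ENNReal.ofReal ((2 / 3 - ν + τ) / (1 - θ)) ∧
        ∀ α : ℝ, 0 < α → α ∉ E → ∃ n₀ : ℕ, ∀ n : ℕ, n₀ ≤ n → ∀ j : K,
          InWindow (α * v n) ((v n) ^ θ) j → ∀ (g : ℕ) (κ : ℝ), 0 < g → 0 ≤ κ →
            BoundFor (c (finrank ℚ K) g κ) g κ j) ∧
    (∀ v : ℕ → ℝ, (∀ n, 1 ≤ v n) → ConvergenceExponentLe v 0 → ∀ᵐ α : ℝ, 0 < α →
      ∀ (K : IntermediateField ℚ ℂ) [NumberField K], ∃ θ : ℝ, 1 / 3 < θ ∧
        ∃ n₀ : ℕ, ∀ n : ℕ, n₀ ≤ n → ∀ j : K, InWindow (α * v n) ((v n) ^ θ) j →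
          ∀ (g : ℕ) (κ : ℝ), 0 < g → 0 ≤ κ → BoundFor (c (finrank ℚ K) g κ) g κ j) ∧
    (∀ D : ℕ, ∃ κ : ℝ, 0 ≤ κ ∧ ∀ (K : Type) [Field K] [NumberField K], finrank ℚ K ≤ D →
      ∀ j : K, j ≠ 0 → j ≠ 1728 → ∃ a b : 𝓞 K, 4 * (a : K) ^ 3 + 27 * (b : K) ^ 2 ≠ 0 ∧
        jinv (a : K) b = j ∧ absH (a : K) + absH (b : K) ≤ κ * (1 + absH j)) := by
  obtain ⟨-, -, h3, h4⟩ := Pool.Agent.Results.MP_9a3c31_nt.AlmostAllInvariants.result
  have hc : ∀ (D g : ℕ) (κ : ℝ), ∃ c : ℝ, 0 < c ∧ (0 < g → 0 ≤ κ →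
      ∀ (K : Type) [Field K] [NumberField K], finrank ℚ K ≤ D → ∀ j : K, j ≠ 0 → j ≠ 1728 →
        j ∉ Exceptional K → BoundFor c g κ j) := by
    intro D g κ
    by_cases hg : 0 < g ∧ 0 ≤ κ
    · obtain ⟨c, hc, h⟩ := h3 D g κ hg.1 hg.2
      refine ⟨c, hc, fun _ _ K _ _ hK j h0 h1 hj a b hab hjab hκ L _ _ _ _ _ => ?_⟩
      subst hjab
      exact (h K hK a b hab hκ h0 h1 hj L).2
    · exact ⟨1, one_pos, fun h1 h2 => absurd ⟨h1, h2⟩ hg⟩
  choose c hc0 hcb using hc
  -- windows without exceptional invariants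
  have hw : ∀ (K : Type) [Field K] [NumberField K], ∃ ν : ℝ, 0 < ν ∧ ν ≤ 1 / 3 ∧
      ∀ (v : ℕ → ℝ) (τ θ : ℝ), (∀ n, 1 ≤ v n) → 0 ≤ τ → ConvergenceExponentLe v τ → θ < 1 →
      ∃ E : Set ℝ, dimH E ≤ ENNReal.ofReal ((2 / 3 - ν + τ) / (1 - θ)) ∧
        ∀ α : ℝ, 0 < α → α ∉ E → ∃ n₀ : ℕ, ∀ n : ℕ, n₀ ≤ n → ∀ j : K,
          InWindow (α * v n) ((v n) ^ θ) j → j ∉ Exceptional K := by
    intro K _ _
    obtain ⟨ν, C, hν, hν3, hC, h⟩ := Pool.Agent.Y728.AK.jbadset_count K
    refine ⟨ν, hν, hν3, fun v τ θ hv hτ hvτ hθ => ?_⟩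
    have hset : ∀ X : ℝ, 1 ≤ X → {t : K | t ∈ Exceptional K ∧ Real.exp (jcnt t) ≤ X} =
        Pool.Agent.Y728.AK.JBadSet K ∩ Pool.Agent.Y728.AK.JAll K X := by
      intro X hX
      ext t
      constructor
      · rintro ⟨h1, h2⟩
        exact ⟨h1, h1.1, h1.2.1, (Real.le_log_iff_exp_le (by linarith)).2 h2⟩
      · rintro ⟨h1, h2⟩
        exact ⟨h1, (Real.le_log_iff_exp_le (by linarith)).1 h2.2.2⟩
    obtain ⟨E, hE1, hE2⟩ := Pool.Agent.Y854.GM.windows (Exceptional K)
      (fun j => Real.exp (jcnt j)) (v := v) (s := 2 / 3 - ν) (τ := τ) (θ := θ) hv hτ hvτ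
      (by linarith) hθ (by
        intro ε hε
        refine ⟨C, fun X hX => ?_⟩
        rw [hset X hX]
        refine ⟨(h X hX).1, (h X hX).2.trans ?_⟩
        exact mul_le_mul_of_nonneg_left
          (Real.rpow_le_rpow_of_exponent_le hX (by linarith)) hC.le)
    refine ⟨E, hE1, fun α hα hαE => ?_⟩
    obtain ⟨n₀, hn₀⟩ := hE2 α hα hαE
    refine ⟨n₀, fun n hn j hj hjE => ?_⟩
    exact absurd hj.2.2 (not_le.2 (hn₀ n hn j hjE))
  refine ⟨c, hc0, ?_, ?_, h4⟩
  · intro K _ _
    obtain ⟨ν, hν, -, h⟩ := hw K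
    refine ⟨ν, hν, fun v τ θ hv hτ hvτ hθ => ?_⟩
    obtain ⟨E, hE1, hE2⟩ := h v τ θ hv hτ hvτ hθ
    refine ⟨E, hE1, fun α hα hαE => ?_⟩
    obtain ⟨n₀, hn₀⟩ := hE2 α hα hαE
    exact ⟨n₀, fun n hn j hj g κ hg hκ =>
      hcb _ g κ hg hκ K le_rfl j hj.1 hj.2.1 (hn₀ n hn j hj)⟩
  · intro v hv hv0
    have h5 : ∀ᵐ α : ℝ, ∀ K ∈ {K : IntermediateField ℚ ℂ | FiniteDimensional ℚ K}, 0 < α →
        ∀ _ : NumberField K, ∃ θ : ℝ, 1 / 3 < θ ∧
          ∃ n₀ : ℕ, ∀ n : ℕ, n₀ ≤ n → ∀ j : K, InWindow (α * v n) ((v n) ^ θ) j →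
            j ∉ Exceptional K := by
      rw [ae_ball_iff Pool.Agent.V11286.NE.countable_fields]
      intro K hK
      have hK' : FiniteDimensional ℚ K := hK
      have hNF : NumberField K := ⟨⟩
      obtain ⟨ν, hν, hν1, h⟩ := hw K
      obtain ⟨E, hE1, hE2⟩ := h v 0 (1 / 3 + ν / 2) hv le_rfl hv0 (by linarith)
      have hE0 : volume E = 0 := Pool.Agent.V11286.NE.vol_zero (ratio hν hν1) hE1
      have hae : ∀ᵐ α : ℝ, α ∉ E := measure_eq_zero_iff_ae_notMem.1 hE0
      filter_upwards [hae] with α hα hα0 _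
      exact ⟨1 / 3 + ν / 2, by linarith, hE2 α hα0 hα⟩
    filter_upwards [h5] with α h6 hα K hK
    have hfd : FiniteDimensional ℚ K := inferInstance
    obtain ⟨θ, hθ, n₀, h7⟩ := h6 K hfd hα hK
    exact ⟨θ, hθ, n₀, fun n hn j hj g κ hg hκ =>
      hcb _ g κ hg hκ K le_rfl j hj.1 hj.2.1 (h7 n hn j hj)⟩

end Pool.Agent.Results.MP_9a3c31_nt.WindowsOfInvariants
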